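import Mathlib

set_option autoImplicit false

/-! Polynomial functions of bounded degree on the real plane, given recursively. -/

namespace Pool.Agent.H70.Dirac

/-- Polynomial functions of degree at most `n` on `ℝ × ℝ`. -/
def PolyFn : ℕ → (ℝ × ℝ → ℝ) → Prop
  | 0, f => ∃ c : ℝ, ∀ p, f p = c
  | n + 1, f => ∃ g h : ℝ × ℝ → ℝ, PolyFn n g ∧ PolyFn n h ∧ ∃ c : ℝ,
      ∀ p, f p = p.1 * g p + p.2 * h p + c

lemma polyFn_const (n : ℕ) (c : ℝ) : PolyFn n (fun _ => c) := by
  induction n generalizing c with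
  | zero => exact ⟨c, fun _ => rfl⟩
  | succ n ih => exact ⟨_, _, ih 0, ih 0, c, fun p => by ring⟩

lemma PolyFn.succ {n : ℕ} {f : ℝ × ℝ → ℝ} (hf : PolyFn n f) : PolyFn (n + 1) f := by
  induction n generalizing f with
  | zero =>
    obtain ⟨c, hc⟩ := hf
    exact ⟨_, _, polyFn_const 0 0, polyFn_const 0 0, c, fun p => by rw [hc]; ring⟩
  | succ n ih =>
    obtain ⟨g, h, hg, hh, c, hc⟩ := hf
    exact ⟨g, h, ih hg, ih hh, c, hc⟩

lemma PolyFn.mono {n m : ℕ} (hnm : n ≤ m) {f : ℝ × ℝ → ℝ} (hf : PolyFn n f) : PolyFn m f := by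
  induction hnm with
  | refl => exact hf
  | step _ ih => exact ih.succ

lemma PolyFn.add {n : ℕ} {f g : ℝ × ℝ → ℝ} (hf : PolyFn n f) (hg : PolyFn n g) :
    PolyFn n (fun p => f p + g p) := by
  induction n generalizing f g with
  | zero =>
    obtain ⟨c, hc⟩ := hf
    obtain ⟨d, hd⟩ := hg
    exact ⟨c + d, fun p => by beta_reduce; rw [hc, hd]⟩
  | succ n ih =>
    obtain ⟨g1, h1, hg1, hh1, c1, hc1⟩ := hf
    obtain ⟨g2, h2, hg2, hh2, c2, hc2⟩ := hg
    exact ⟨_, _, ih hg1 hg2, ih hh1 hh2, c1 + c2, fun p => by beta_reduce; rw [hc1, hc2]; ring⟩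

lemma PolyFn.const_mul {n : ℕ} {f : ℝ × ℝ → ℝ} (a : ℝ) (hf : PolyFn n f) :
    PolyFn n (fun p => a * f p) := by
  induction n generalizing f with
  | zero =>
    obtain ⟨c, hc⟩ := hf
    exact ⟨a * c, fun p => by beta_reduce; rw [hc]⟩
  | succ n ih =>
    obtain ⟨g1, h1, hg1, hh1, c1, hc1⟩ := hf
    exact ⟨_, _, ih hg1, ih hh1, a * c1, fun p => by beta_reduce; rw [hc1]; ring⟩

lemma PolyFn.congr {n : ℕ} {f g : ℝ × ℝ → ℝ} (hf : PolyFn n f) (h : ∀ p, g p = f p) :
    PolyFn n g := by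
  have : g = f := funext h
  rwa [this]

lemma PolyFn.fst_mul {n : ℕ} {f : ℝ × ℝ → ℝ} (hf : PolyFn n f) :
    PolyFn (n + 1) (fun p => p.1 * f p) :=
  ⟨f, _, hf, polyFn_const n 0, 0, fun p => by ring⟩

lemma PolyFn.snd_mul {n : ℕ} {f : ℝ × ℝ → ℝ} (hf : PolyFn n f) :
    PolyFn (n + 1) (fun p => p.2 * f p) :=
  ⟨_, f, polyFn_const n 0, hf, 0, fun p => by ring⟩

/-- The affine map with the given coefficients. -/
def aff (a b e c d g : ℝ) (p : ℝ × ℝ) : ℝ × ℝ := (a * p.1 + b * p.2 + e, c * p.1 + d * p.2 + g)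

lemma PolyFn.comp_aff {n : ℕ} {f : ℝ × ℝ → ℝ} (hf : PolyFn n f) (a b e c d g : ℝ) :
    PolyFn n (fun p => f (aff a b e c d g p)) := by
  induction n generalizing f with
  | zero =>
    obtain ⟨k, hk⟩ := hf
    exact ⟨k, fun p => by beta_reduce; rw [hk]⟩
  | succ n ih =>
    obtain ⟨f1, f2, h1, h2, k, hk⟩ := hf
    have i1 := ih h1
    have i2 := ih h2
    have t1 : PolyFn (n + 1) (fun p => p.1 * (a * f1 (aff a b e c d g p) +
        c * f2 (aff a b e c d g p))) := ((i1.const_mul a).add (i2.const_mul c)).fst_mul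
    have t2 : PolyFn (n + 1) (fun p => p.2 * (b * f1 (aff a b e c d g p) +
        d * f2 (aff a b e c d g p))) := ((i1.const_mul b).add (i2.const_mul d)).snd_mul
    have t3 : PolyFn (n + 1) (fun p => e * f1 (aff a b e c d g p) +
        g * f2 (aff a b e c d g p)) := ((i1.const_mul e).add (i2.const_mul g)).succ
    refine (((t1.add t2).add t3).add (polyFn_const (n + 1) k)).congr fun p => ?_
    rw [hk]
    simp only [aff]
    ring

open Polynomial in
/-- Splitting off the restriction to the horizontal axis. -/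
lemma PolyFn.split {n : ℕ} {f : ℝ × ℝ → ℝ} (hf : PolyFn (n + 1) f) :
    ∃ q : ℝ[X], q.natDegree ≤ n + 1 ∧ ∃ g, PolyFn n g ∧ ∀ p, f p = q.eval p.1 + p.2 * g p := by
  induction n generalizing f with
  | zero =>
    obtain ⟨f1, f2, ⟨c1, h1⟩, h2, c, hc⟩ := hf
    refine ⟨C c1 * X + C c, ?_, f2, h2, fun p => ?_⟩
    · exact natDegree_linear_le
    · rw [hc, h1]; simp; ring
  | succ n ih =>
    obtain ⟨f1, f2, h1, h2, c, hc⟩ := hf
    obtain ⟨q, hq, g, hg, hqg⟩ := ih h1
    refine ⟨X * q + C c, ?_, fun p => f2 p + p.1 * g p, h2.add hg.fst_mul, fun p => ?_⟩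
    · refine (natDegree_add_C).le.trans ?_
      refine natDegree_mul_le.trans ?_
      rw [natDegree_X]
      omega
    · rw [hc, hqg]; simp; ring

/-- If a polynomial function of degree at most `n+1` has at least `n+2` zeros on the horizontal
axis, it is divisible by the second coordinate. -/
lemma PolyFn.div_axis {n : ℕ} {f : ℝ × ℝ → ℝ} (hf : PolyFn (n + 1) f) (s : Finset ℝ)
    (hs : n + 2 ≤ s.card) (h : ∀ x ∈ s, f (x, 0) = 0) :
    ∃ g, PolyFn n g ∧ ∀ p, f p = p.2 * g p := by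
  obtain ⟨q, hq, g, hg, hqg⟩ := hf.split
  have hq0 : q = 0 := by
    by_contra hne
    have hsub : s ⊆ q.roots.toFinset := by
      intro x hx
      rw [Multiset.mem_toFinset, Polynomial.mem_roots hne]
      have := h x hx
      rw [hqg] at this
      simpa using this
    have h1 := Finset.card_le_card hsub
    have h2 := Multiset.toFinset_card_le q.roots
    have h3 := Polynomial.card_roots' q
    omega
  exact ⟨g, hg, fun p => by rw [hqg, hq0]; simp⟩

/-- The affine form with coefficients `L`. -/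
def ev (L : ℝ × ℝ × ℝ) (p : ℝ × ℝ) : ℝ := L.1 * p.1 + L.2.1 * p.2 + L.2.2

/-- Division by an affine form. -/
lemma PolyFn.div_line {n : ℕ} {f : ℝ × ℝ → ℝ} (hf : PolyFn (n + 1) f) (L : ℝ × ℝ × ℝ)
    (hL : (L.1, L.2.1) ≠ (0, 0)) (s : Finset (ℝ × ℝ)) (hs : n + 2 ≤ s.card)
    (hsL : ∀ p ∈ s, ev L p = 0) (h : ∀ p ∈ s, f p = 0) :
    ∃ g, PolyFn n g ∧ ∀ p, f p = ev L p * g p := by
  classical
  obtain ⟨α, β, γ⟩ := L
  simp only [ev] at hsL ⊢
  have hN : 0 < α ^ 2 + β ^ 2 := by
    by_contra hcon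
    apply hL
    have h1 : α ^ 2 = 0 := by nlinarith [sq_nonneg α, sq_nonneg β]
    have h2 : β ^ 2 = 0 := by nlinarith [sq_nonneg α, sq_nonneg β]
    have h1' : α = 0 := by simpa using h1
    have h2' : β = 0 := by simpa using h2
    simp [h1', h2']
  set N := α ^ 2 + β ^ 2 with hNdef
  -- new coordinates: u = β x - α y, w = α x + β y + γ
  -- x = (β u + α (w - γ)) / N, y = (-α u + β (w - γ)) / N
  have hcomp := hf.comp_aff (β / N) (α / N) (-(α * γ) / N) (-α / N) (β / N) (-(β * γ) / N)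
  have hs' : n + 2 ≤ (s.image (fun p => β * p.1 - α * p.2)).card := by
    rw [Finset.card_image_of_injOn]
    · exact hs
    · intro p hp q hq hpq
      have e1 := hsL p hp
      have e2 := hsL q hq
      simp only at hpq
      have e3 : α * (p.1 - q.1) + β * (p.2 - q.2) = 0 := by linarith
      have e4 : β * (p.1 - q.1) - α * (p.2 - q.2) = 0 := by linarith
      have e5 : N * (p.1 - q.1) = 0 := by rw [hNdef]; linear_combination α * e3 + β * e4
      have e6 : N * (p.2 - q.2) = 0 := by rw [hNdef]; linear_combination β * e3 - α * e4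
      have e7 : p.1 - q.1 = 0 := (mul_eq_zero.1 e5).resolve_left hN.ne'
      have e8 : p.2 - q.2 = 0 := (mul_eq_zero.1 e6).resolve_left hN.ne'
      exact Prod.ext (sub_eq_zero.1 e7) (sub_eq_zero.1 e8)
  obtain ⟨g, hg, hfg⟩ := hcomp.div_axis _ hs' (by
    intro x hx
    obtain ⟨p, hp, rfl⟩ := Finset.mem_image.1 hx
    have e1 := hsL p hp
    have : aff (β / N) (α / N) (-(α * γ) / N) (-α / N) (β / N) (-(β * γ) / N)
        (β * p.1 - α * p.2, 0) = p := by
      simp only [aff]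
      apply Prod.ext
      · field_simp
        rw [hNdef]
        linear_combination (-α) * e1
      · field_simp
        rw [hNdef]
        linear_combination (-β) * e1
    rw [this]
    exact h p hp)
  refine ⟨fun p => g (aff β (-α) 0 α β γ p), hg.comp_aff _ _ _ _ _ _, fun p => ?_⟩
  have := hfg (aff β (-α) 0 α β γ p)
  have e : aff (β / N) (α / N) (-(α * γ) / N) (-α / N) (β / N) (-(β * γ) / N)
      (aff β (-α) 0 α β γ p) = p := by
    simp only [aff]
    apply Prod.ext
    · field_simp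
      rw [hNdef]; ring
    · field_simp
      rw [hNdef]; ring
  rw [e] at this
  rw [this]
  simp only [aff]

end Pool.Agent.H70.Dirac
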