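import Mathlib
import Pool.Agent.H70.Dirac.Poly

set_option autoImplicit false

/-! Dirac-type bound for point sets on three lines. -/

namespace Pool.Agent.H70.Dirac

open Finset

/-- Twice the signed area of the triangle `p q r`. -/
def cr (p q r : ℝ × ℝ) : ℝ := (q.1 - p.1) * (r.2 - p.2) - (q.2 - p.2) * (r.1 - p.1)

/-- The point `p` lies on at least `k` connecting lines of `P`. -/
def Sees (P : Finset (ℝ × ℝ)) (p : ℝ × ℝ) (k : ℕ) : Prop :=
  ∃ S : Finset (ℝ × ℝ), S ⊆ P ∧ p ∉ S ∧ k ≤ S.card ∧ ∀ q ∈ S, ∀ r ∈ S, q ≠ r → cr p q r ≠ 0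

/-- Nondegenerate affine forms, i.e. those whose zero set is a line. -/
def Nondeg (L : ℝ × ℝ × ℝ) : Prop := (L.1, L.2.1) ≠ (0, 0)

lemma Nondeg.pos {L : ℝ × ℝ × ℝ} (h : Nondeg L) : 0 < L.1 ^ 2 + L.2.1 ^ 2 := by
  by_contra hcon
  apply h
  have h1 : L.1 ^ 2 = 0 := by nlinarith [sq_nonneg L.1, sq_nonneg L.2.1]
  have h2 : L.2.1 ^ 2 = 0 := by nlinarith [sq_nonneg L.1, sq_nonneg L.2.1]
  have h1' : L.1 = 0 := by simpa using h1
  have h2' : L.2.1 = 0 := by simpa using h2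
  simp [h1', h2']

lemma cr_cyc (p q r : ℝ × ℝ) : cr p q r = cr r p q := by unfold cr; ring
lemma cr_swap (p q r : ℝ × ℝ) : cr p q r = - cr p r q := by unfold cr; ring

/-- Two distinct points of a line and a point off it are not collinear. -/
lemma cr_line (L : ℝ × ℝ × ℝ) {x q r : ℝ × ℝ} (hx : ev L x ≠ 0) (hq : ev L q = 0)
    (hr : ev L r = 0) (hqr : q ≠ r) : cr x q r ≠ 0 := by
  intro h
  unfold ev at hx hq hr
  unfold cr at h
  have e1 : (r.1 - q.1) * (L.1 * x.1 + L.2.1 * x.2 + L.2.2) = 0 := by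
    linear_combination (L.2.1) * h + (r.1 - x.1) * hq - (q.1 - x.1) * hr
  have e2 : (r.2 - q.2) * (L.1 * x.1 + L.2.1 * x.2 + L.2.2) = 0 := by
    linear_combination (-L.1) * h + (r.2 - x.2) * hq - (q.2 - x.2) * hr
  apply hqr
  refine Prod.ext ?_ ?_
  · have := (mul_eq_zero.1 e1).resolve_right hx
    linarith
  · have := (mul_eq_zero.1 e2).resolve_right hx
    linarith

/-- Three points of a line are collinear. -/
lemma cr_zero {L : ℝ × ℝ × ℝ} (hL : Nondeg L) {x q r : ℝ × ℝ} (hx : ev L x = 0)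
    (hq : ev L q = 0) (hr : ev L r = 0) : cr x q r = 0 := by
  have hN := hL.pos
  unfold ev at hx hq hr
  have : (L.1 ^ 2 + L.2.1 ^ 2) * cr x q r = 0 := by
    unfold cr
    linear_combination (L.1 * (q.2 - r.2) - L.2.1 * (q.1 - r.1)) * hx +
      (L.1 * (r.2 - x.2) - L.2.1 * (r.1 - x.1)) * hq +
      (L.1 * (x.2 - q.2) - L.2.1 * (x.1 - q.1)) * hr
  exact (mul_eq_zero.1 this).resolve_left hN.ne'

lemma cr_trans {x y z w : ℝ × ℝ} (hxy : y ≠ x) (h1 : cr x y z = 0) (h2 : cr x y w = 0) :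
    cr x z w = 0 := by
  unfold cr at *
  have e1 : (y.1 - x.1) * ((z.1 - x.1) * (w.2 - x.2) - (z.2 - x.2) * (w.1 - x.1)) = 0 := by
    linear_combination (z.1 - x.1) * h2 - (w.1 - x.1) * h1
  have e2 : (y.2 - x.2) * ((z.1 - x.1) * (w.2 - x.2) - (z.2 - x.2) * (w.1 - x.1)) = 0 := by
    linear_combination (z.2 - x.2) * h2 - (w.2 - x.2) * h1
  rcases mul_eq_zero.1 e1 with h | h
  · rcases mul_eq_zero.1 e2 with h' | h'
    · exact absurd (Prod.ext (by linarith) (by linarith)) hxy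
    · exact h'
  · exact h

/-- A point off a line sees all the points on the line. -/
lemma sees_line (P : Finset (ℝ × ℝ)) (L : ℝ × ℝ × ℝ) {z : ℝ × ℝ} (hz : ev L z ≠ 0) :
    Sees P z (P.filter fun p => ev L p = 0).card := by
  refine ⟨P.filter fun p => ev L p = 0, filter_subset _ _, ?_, le_rfl, ?_⟩
  · intro h
    exact hz (mem_filter.1 h).2
  · intro q hq r hr hqr
    exact cr_line L hz (mem_filter.1 hq).2 (mem_filter.1 hr).2 hqr

lemma Sees.mono {P : Finset (ℝ × ℝ)} {p : ℝ × ℝ} {k l : ℕ} (h : Sees P p l) (hkl : k ≤ l) :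
    Sees P p k := by
  obtain ⟨S, h1, h2, h3, h4⟩ := h
  exact ⟨S, h1, h2, hkl.trans h3, h4⟩

/-- The conclusion of the theorem. -/
def Good (P : Finset (ℝ × ℝ)) : Prop := ∃ p ∈ P, ∃ k : ℕ, Sees P p k ∧ P.card ≤ 2 * k + 1

/-- Not contained in a line. -/
def NonCol (P : Finset (ℝ × ℝ)) : Prop := ∀ L : ℝ × ℝ × ℝ, Nondeg L → ∃ p ∈ P, ev L p ≠ 0

lemma good_two_lines {P : Finset (ℝ × ℝ)} (hP : NonCol P) {L1 L2 : ℝ × ℝ × ℝ} (h1 : Nondeg L1)
    (h2 : Nondeg L2) (h : ∀ p ∈ P, ev L1 p = 0 ∨ ev L2 p = 0) : Good P := by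
  have hsub : P ⊆ (P.filter fun p => ev L1 p = 0) ∪ (P.filter fun p => ev L2 p = 0) := by
    intro p hp
    rw [mem_union, mem_filter, mem_filter]
    rcases h p hp with h | h
    · exact Or.inl ⟨hp, h⟩
    · exact Or.inr ⟨hp, h⟩
  have hcard := (card_le_card hsub).trans (card_union_le _ _)
  rcases le_total (P.filter fun p => ev L1 p = 0).card (P.filter fun p => ev L2 p = 0).card
    with hle | hle
  · obtain ⟨z, hz, hz'⟩ := hP L2 h2
    exact ⟨z, hz, _, sees_line P L2 hz', by omega⟩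
  · obtain ⟨z, hz, hz'⟩ := hP L1 h1
    exact ⟨z, hz, _, sees_line P L1 hz', by omega⟩

/-- The points of `P` on the first line only. -/
noncomputable def only (P : Finset (ℝ × ℝ)) (K L M : ℝ × ℝ × ℝ) : Finset (ℝ × ℝ) :=
  P.filter fun p => ev K p = 0 ∧ ev L p ≠ 0 ∧ ev M p ≠ 0

/-- The points of `P` on the first two lines but not on the third. -/
noncomputable def two (P : Finset (ℝ × ℝ)) (K L M : ℝ × ℝ × ℝ) : Finset (ℝ × ℝ) :=
  P.filter fun p => ev K p = 0 ∧ ev L p = 0 ∧ ev M p ≠ 0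

/-- The main counting lemma: `x` lies on the first line only. -/
lemma sees_main {P : Finset (ℝ × ℝ)} {L1 L2 L3 : ℝ × ℝ × ℝ} {x : ℝ × ℝ} (hx1 : ev L1 x = 0)
    (hx2 : ev L2 x ≠ 0) (hx3 : ev L3 x ≠ 0) {w : ℕ}
    (hw : w = 0 ∨ (w = 1 ∧ ∃ q ∈ P, q ≠ x ∧ ev L1 q = 0)) :
    ∃ k : ℕ, Sees P x k ∧ (only P L2 L1 L3).card + (only P L3 L1 L2).card + (two P L2 L3 L1).card + w
      ≤ k + ((only P L2 L1 L3).filter fun y => ∃ z ∈ only P L3 L1 L2, cr x y z = 0).card := by
  classical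
  set P2 := only P L2 L1 L3 with hP2
  set P3 := only P L3 L1 L2 with hP3
  set V := two P L2 L3 L1 with hV
  set T := P2.filter fun y => ∃ z ∈ P3, cr x y z = 0 with hT
  set P3' := P3.filter fun z => ∀ y ∈ P2, cr x y z ≠ 0 with hP3'
  have m2 : ∀ y ∈ P2, y ∈ P ∧ ev L2 y = 0 ∧ ev L1 y ≠ 0 ∧ ev L3 y ≠ 0 := fun y hy =>
    mem_filter.1 hy
  have m3 : ∀ y ∈ P3, y ∈ P ∧ ev L3 y = 0 ∧ ev L1 y ≠ 0 ∧ ev L2 y ≠ 0 := fun y hy =>
    mem_filter.1 hy
  have mV : ∀ y ∈ V, y ∈ P ∧ ev L2 y = 0 ∧ ev L3 y = 0 ∧ ev L1 y ≠ 0 := fun y hy =>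
    mem_filter.1 hy
  have m3' : ∀ y ∈ P3', y ∈ P3 ∧ ∀ u ∈ P2, cr x u y ≠ 0 := fun y hy => mem_filter.1 hy
  -- cardinality of P3'
  have hc : P3.card ≤ P3'.card + T.card := by
    have hsplit : P3.card = P3'.card + (P3.filter fun z => ¬ ∀ y ∈ P2, cr x y z ≠ 0).card := by
      rw [hP3', card_filter_add_card_filter_not]
    have hinj : (P3.filter fun z => ¬ ∀ y ∈ P2, cr x y z ≠ 0).card ≤ T.card := by
      have hex : ∀ z ∈ (P3.filter fun z => ¬ ∀ y ∈ P2, cr x y z ≠ 0), ∃ y ∈ P2, cr x y z = 0 := by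
        intro z hz
        have := (mem_filter.1 hz).2
        push Not at this
        exact this
      choose! g hg using hex
      refine card_le_card_of_injOn g ?_ ?_
      · intro z hz
        rw [mem_coe] at hz
        rw [mem_coe, hT, mem_filter]
        exact ⟨(hg z hz).1, z, (mem_filter.1 hz).1, (hg z hz).2⟩
      · intro z hz z' hz' hzz'
        rw [mem_coe] at hz hz'
        by_contra hne
        have hy := (hg z hz).1
        have e1 := (hg z hz).2
        have e2 := (hg z' hz').2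
        rw [← hzz'] at e2
        have hyx : g z ≠ x := by
          intro h
          exact hx2 (h ▸ (m2 _ hy).2.1)
        have e3 := cr_trans hyx e1 e2
        exact cr_line L3 hx3 (m3 _ (mem_filter.1 hz).1).2.1 (m3 _ (mem_filter.1 hz').1).2.1 hne e3
    omega
  -- the visible set without the extra point
  set S0 := P2 ∪ P3' ∪ V with hS0
  have hS0card : S0.card = P2.card + P3'.card + V.card := by
    rw [hS0, card_union_of_disjoint, card_union_of_disjoint]
    · rw [disjoint_left]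
      intro a ha hb
      exact (m2 a ha).2.2.2 (m3 a (m3' a hb).1).2.1
    · rw [disjoint_left]
      intro a ha hb
      rcases mem_union.1 ha with h | h
      · exact (m2 a h).2.2.2 (mV a hb).2.2.1
      · exact (m3 a (m3' a h).1).2.2.2 (mV a hb).2.1
  have hS0P : ∀ q ∈ S0, q ∈ P ∧ ev L1 q ≠ 0 := by
    intro q hq
    rcases mem_union.1 hq with h | h
    · rcases mem_union.1 h with h | h
      · exact ⟨(m2 q h).1, (m2 q h).2.2.1⟩
      · exact ⟨(m3 q (m3' q h).1).1, (m3 q (m3' q h).1).2.2.1⟩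
    · exact ⟨(mV q h).1, (mV q h).2.2.2⟩
  have hpair : ∀ q ∈ S0, ∀ r ∈ S0, q ≠ r → cr x q r ≠ 0 := by
    intro q hq r hr hqr
    have c2 : ev L2 q = 0 → ev L2 r = 0 → cr x q r ≠ 0 := fun a b => cr_line L2 hx2 a b hqr
    have c3 : ev L3 q = 0 → ev L3 r = 0 → cr x q r ≠ 0 := fun a b => cr_line L3 hx3 a b hqr
    rcases mem_union.1 hq with h | h
    · rcases mem_union.1 h with h | h
      · rcases mem_union.1 hr with h' | h'
        · rcases mem_union.1 h' with h' | h'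
          · exact c2 (m2 q h).2.1 (m2 r h').2.1
          · exact (m3' r h').2 q h
        · exact c2 (m2 q h).2.1 (mV r h').2.1
      · rcases mem_union.1 hr with h' | h'
        · rcases mem_union.1 h' with h' | h'
          · rw [cr_swap, neg_ne_zero]
            exact (m3' q h).2 r h'
          · exact c3 (m3 q (m3' q h).1).2.1 (m3 r (m3' r h').1).2.1
        · exact c3 (m3 q (m3' q h).1).2.1 (mV r h').2.2.1
    · rcases mem_union.1 hr with h' | h'
      · rcases mem_union.1 h' with h' | h'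
        · exact c2 (mV q h).2.1 (m2 r h').2.1
        · exact c3 (mV q h).2.2.1 (m3 r (m3' r h').1).2.1
      · exact c2 (mV q h).2.1 (mV r h').2.1
  rcases hw with rfl | ⟨rfl, q, hqP, hqx, hq1⟩
  · refine ⟨S0.card, ⟨S0, fun q hq => (hS0P q hq).1, fun h => (hS0P x h).2 hx1, le_rfl, hpair⟩, ?_⟩
    omega
  · have hqS : q ∉ S0 := fun h => (hS0P q h).2 hq1
    refine ⟨(insert q S0).card, ⟨insert q S0, ?_, ?_, le_rfl, ?_⟩, ?_⟩
    · intro r hr
      rcases mem_insert.1 hr with rfl | h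
      · exact hqP
      · exact (hS0P r h).1
    · intro h
      rcases mem_insert.1 h with h | h
      · exact hqx h.symm
      · exact (hS0P x h).2 hx1
    · intro a ha b hb hab
      rcases mem_insert.1 ha with h | h
      · rcases mem_insert.1 hb with h' | h'
        · exact absurd (h.trans h'.symm) hab
        · rw [h, cr_cyc]
          exact cr_line L1 (hS0P b h').2 hx1 hq1 hqx.symm
      · rcases mem_insert.1 hb with h' | h'
        · rw [h', cr_swap, cr_cyc, neg_ne_zero]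
          exact cr_line L1 (hS0P a h).2 hx1 hq1 hqx.symm
        · exact hpair a h b h' hab
    · rw [card_insert_of_notMem hqS]
      omega

end Pool.Agent.H70.Dirac
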