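import Mathlib
import Pool.Agent.H70.Dirac.Lines

set_option autoImplicit false

/-! Dirac-type bound for point sets on three lines. -/

namespace Pool.Agent.H70.Dirac

open Finset

/-- The determinant of three affine forms. -/
def dt (K L M : ℝ × ℝ × ℝ) : ℝ :=
  K.1 * (L.2.1 * M.2.2 - L.2.2 * M.2.1) - K.2.1 * (L.1 * M.2.2 - L.2.2 * M.1) +
    K.2.2 * (L.1 * M.2.1 - L.2.1 * M.1)

lemma dt_mul_cr (K L M : ℝ × ℝ × ℝ) (x y z : ℝ × ℝ) :
    dt K L M * cr x y z =
      ev K x * (ev L y * ev M z - ev M y * ev L z) - ev L x * (ev K y * ev M z - ev M y * ev K z) +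
        ev M x * (ev K y * ev L z - ev L y * ev K z) := by
  unfold dt cr ev; ring

/-- Coordinates on a line. -/
lemma eq_of_ratio {K L M : ℝ × ℝ × ℝ} (hD : dt K L M ≠ 0) {y y' : ℝ × ℝ} (h1 : ev L y = 0)
    (h2 : ev L y' = 0) (h3 : ev M y * ev K y' = ev M y' * ev K y) : y = y' := by
  have key : ∀ w, cr y y' w = 0 := by
    intro w
    have := dt_mul_cr K L M y y' w
    rw [h1, h2] at this
    have h4 : dt K L M * cr y y' w = 0 := by
      rw [this]; linear_combination (ev L w) * h3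
    exact (mul_eq_zero.1 h4).resolve_left hD
  have a := key (y.1 + 1, y.2)
  have b := key (y.1, y.2 + 1)
  unfold cr at a b
  simp only at a b
  exact Prod.ext (by linarith) (by linarith)

/-- The extremal choice. -/
lemma extremal {P1 P2 P3 : Finset (ℝ × ℝ)} (h1 : P1.Nonempty) (h3 : P3.Nonempty)
    (A B C : ℝ × ℝ → ℝ) (κ : ℕ)
    (hABC : ∀ x ∈ P1, ∀ y ∈ P2, ∀ z ∈ P3, cr x y z = 0 → A x + B y + C z = 0)
    (hB : ∀ t : ℝ, (P2.filter fun y => B y = t).card ≤ κ) :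
    ∃ x0 ∈ P1, ∃ z0 ∈ P3, (P2.filter fun y => ∃ z ∈ P3, cr x0 y z = 0).card +
      (P2.filter fun y => ∃ x ∈ P1, cr z0 y x = 0).card ≤ P2.card + κ := by
  classical
  obtain ⟨x0, hx0, hxmax⟩ := P1.exists_max_image A h1
  obtain ⟨z0, hz0, hzmin⟩ := P3.exists_min_image C h3
  refine ⟨x0, hx0, z0, hz0, ?_⟩
  set Y1 := P2.filter fun y => ∃ z ∈ P3, cr x0 y z = 0
  set Y3 := P2.filter fun y => ∃ x ∈ P1, cr z0 y x = 0
  have hunion : (Y1 ∪ Y3).card ≤ P2.card :=
    card_le_card (union_subset (filter_subset _ _) (filter_subset _ _))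
  have hinter : (Y1 ∩ Y3).card ≤ κ := by
    refine le_trans (card_le_card ?_) (hB (-(A x0) - C z0))
    intro y hy
    obtain ⟨hy1, hy3⟩ := mem_inter.1 hy
    obtain ⟨hyP, z, hz, e1⟩ := mem_filter.1 hy1
    obtain ⟨-, x, hx, e2⟩ := mem_filter.1 hy3
    rw [mem_filter]
    refine ⟨hyP, ?_⟩
    have e3 := hABC x0 hx0 y hyP z hz e1
    have e4 : cr x y z0 = 0 := by
      have : cr x y z0 = - cr z0 y x := by unfold cr; ring
      rw [this, e2, neg_zero]
    have e5 := hABC x hx y hyP z0 hz0 e4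
    have e6 := hxmax x hx
    have e7 := hzmin z hz
    linarith
  have := card_union_add_card_inter Y1 Y3
  omega

lemma log_triple {a b c d e f : ℝ} (ha : a ≠ 0) (hb : b ≠ 0) (hc : c ≠ 0) (hd : d ≠ 0)
    (he : e ≠ 0) (hf : f ≠ 0) (h : a * b * c + d * e * f = 0) :
    Real.log (a / d) + Real.log (b / e) + Real.log (c / f) = 0 := by
  rw [← Real.log_mul (div_ne_zero ha hd) (div_ne_zero hb he),
    ← Real.log_mul (mul_ne_zero (div_ne_zero ha hd) (div_ne_zero hb he)) (div_ne_zero hc hf)]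
  have : a / d * (b / e) * (c / f) = -1 := by
    field_simp
    linarith
  rw [this]
  simp

/-- Existence of a good pair when the three forms are linearly independent. -/
lemma pair_indep {P : Finset (ℝ × ℝ)} {L1 L2 L3 : ℝ × ℝ × ℝ} (hD : dt L1 L2 L3 ≠ 0)
    (h1 : (only P L1 L2 L3).Nonempty) (h3 : (only P L3 L1 L2).Nonempty) :
    ∃ x0 ∈ only P L1 L2 L3, ∃ z0 ∈ only P L3 L1 L2,
      ((only P L2 L1 L3).filter fun y => ∃ z ∈ only P L3 L1 L2, cr x0 y z = 0).card +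
      ((only P L2 L1 L3).filter fun y => ∃ x ∈ only P L1 L2 L3, cr z0 y x = 0).card
        ≤ (only P L2 L1 L3).card + 2 := by
  classical
  refine extremal h1 h3 (fun x => Real.log (ev L2 x / ev L3 x)) (fun y => Real.log (ev L3 y / ev L1 y))
    (fun z => Real.log (ev L1 z / ev L2 z)) 2 ?_ ?_
  · intro x hx y hy z hz h
    obtain ⟨-, x1, x2, x3⟩ := mem_filter.1 hx
    obtain ⟨-, y2, y1, y3⟩ := mem_filter.1 hy
    obtain ⟨-, z3, z1, z2⟩ := mem_filter.1 hz
    have := dt_mul_cr L1 L2 L3 x y z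
    rw [h, x1, y2, z3] at this
    exact log_triple x2 y3 z1 x3 y1 z2 (by linarith)
  · intro t
    have hle : ((only P L2 L1 L3).filter fun y => Real.log (ev L3 y / ev L1 y) = t).card ≤
        ({Real.exp t, -Real.exp t} : Finset ℝ).card := by
      refine card_le_card_of_injOn (fun y => ev L3 y / ev L1 y) ?_ ?_
      · intro y hy
        rw [mem_coe, mem_filter] at hy
        obtain ⟨hy, ht⟩ := hy
        obtain ⟨-, y2, y1, y3⟩ := mem_filter.1 hy
        have hne : ev L3 y / ev L1 y ≠ 0 := div_ne_zero y3 y1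
        have : |ev L3 y / ev L1 y| = Real.exp t := by
          rw [← ht, Real.exp_log_eq_abs hne]
        rw [mem_coe, mem_insert, mem_singleton]
        exact (abs_eq (Real.exp_pos t).le).1 this
      · intro y hy y' hy' h
        rw [mem_coe, mem_filter] at hy hy'
        obtain ⟨-, y2, y1, -⟩ := mem_filter.1 hy.1
        obtain ⟨-, y2', y1', -⟩ := mem_filter.1 hy'.1
        simp only at h
        rw [div_eq_div_iff y1 y1'] at h
        exact eq_of_ratio hD y2 y2' h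
    exact hle.trans (card_le_two)

/-- The affine form attached to the cross product. -/
def crossForm (K L : ℝ × ℝ × ℝ) : ℝ × ℝ × ℝ :=
  (K.2.1 * L.2.2 - K.2.2 * L.2.1, K.2.2 * L.1 - K.1 * L.2.2, K.1 * L.2.1 - K.2.1 * L.1)

lemma dt_crossForm (K L : ℝ × ℝ × ℝ) : dt K L (crossForm K L) =
    (crossForm K L).1 ^ 2 + (crossForm K L).2.1 ^ 2 + (crossForm K L).2.2 ^ 2 := by
  unfold dt crossForm; ring

/-- If some point is on the line `K` but not on the line `L`, the cross product is nonzero. -/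
lemma dt_crossForm_ne {K L : ℝ × ℝ × ℝ} (hK : Nondeg K) {x : ℝ × ℝ} (h1 : ev K x = 0)
    (h2 : ev L x ≠ 0) : dt K L (crossForm K L) ≠ 0 := by
  intro h
  rw [dt_crossForm] at h
  have a1 : (crossForm K L).1 = 0 := by
    have : (crossForm K L).1 ^ 2 = 0 := by
      nlinarith [sq_nonneg (crossForm K L).1, sq_nonneg (crossForm K L).2.1,
        sq_nonneg (crossForm K L).2.2]
    simpa using this
  have a2 : (crossForm K L).2.1 = 0 := by
    have : (crossForm K L).2.1 ^ 2 = 0 := by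
      nlinarith [sq_nonneg (crossForm K L).1, sq_nonneg (crossForm K L).2.1,
        sq_nonneg (crossForm K L).2.2]
    simpa using this
  have a3 : (crossForm K L).2.2 = 0 := by
    have : (crossForm K L).2.2 ^ 2 = 0 := by
      nlinarith [sq_nonneg (crossForm K L).1, sq_nonneg (crossForm K L).2.1,
        sq_nonneg (crossForm K L).2.2]
    simpa using this
  simp only [crossForm] at a1 a2 a3
  unfold ev at h1 h2
  have hN := hK.pos
  apply h2
  have : (K.1 ^ 2 + K.2.1 ^ 2) * (L.1 * x.1 + L.2.1 * x.2 + L.2.2) = 0 := by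
    linear_combination (K.1 * L.1 + K.2.1 * L.2.1) * h1 + (K.1 * x.2 - K.2.1 * x.1) * a3 -
      K.1 * a2 + K.2.1 * a1
  exact (mul_eq_zero.1 this).resolve_left hN.ne'

/-- Existence of a good pair when the three forms are linearly dependent. -/
lemma pair_dep {P : Finset (ℝ × ℝ)} {L1 L2 L3 : ℝ × ℝ × ℝ} (hN1 : Nondeg L1) {α β : ℝ}
    (hrel : ∀ p, ev L3 p = α * ev L1 p + β * ev L2 p)
    (h1 : (only P L1 L2 L3).Nonempty) (h3 : (only P L3 L1 L2).Nonempty) :
    ∃ x0 ∈ only P L1 L2 L3, ∃ z0 ∈ only P L3 L1 L2,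
      ((only P L2 L1 L3).filter fun y => ∃ z ∈ only P L3 L1 L2, cr x0 y z = 0).card +
      ((only P L2 L1 L3).filter fun y => ∃ x ∈ only P L1 L2 L3, cr z0 y x = 0).card
        ≤ (only P L2 L1 L3).card + 1 := by
  classical
  obtain ⟨u, hu⟩ := h1
  obtain ⟨-, u1, u2, u3⟩ := mem_filter.1 hu
  have hD : dt L1 L2 (crossForm L1 L2) ≠ 0 := dt_crossForm_ne hN1 u1 u2
  set M := crossForm L1 L2 with hM
  have hβ : β ≠ 0 := by
    rintro rfl
    apply u3
    rw [hrel, u1]; ring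
  refine extremal ⟨u, hu⟩ h3 (fun x => α * (ev M x / ev L2 x)) (fun y => -β * (ev M y / ev L1 y))
    (fun z => β * (ev M z / ev L1 z)) 1 ?_ ?_
  · intro x hx y hy z hz h
    obtain ⟨-, x1, x2, x3⟩ := mem_filter.1 hx
    obtain ⟨-, y2, y1, y3⟩ := mem_filter.1 hy
    obtain ⟨-, z3, z1, z2⟩ := mem_filter.1 hz
    have e := dt_mul_cr L1 L2 M x y z
    rw [h, x1, y2] at e
    rw [hrel] at z3
    field_simp
    have e' : ev L2 x * (ev L1 y * ev M z - ev M y * ev L1 z) = ev M x * (ev L1 y * ev L2 z) := by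
      linarith
    linear_combination (-β) * e' * (-1) + (ev M x * ev L1 y) * z3
  · intro t
    rw [card_le_one]
    intro y hy y' hy'
    obtain ⟨hy, ht⟩ := mem_filter.1 hy
    obtain ⟨hy', ht'⟩ := mem_filter.1 hy'
    obtain ⟨-, y2, y1, -⟩ := mem_filter.1 hy
    obtain ⟨-, y2', y1', -⟩ := mem_filter.1 hy'
    have h : ev M y / ev L1 y = ev M y' / ev L1 y' :=
      mul_left_cancel₀ (neg_ne_zero.2 hβ) (ht.trans ht'.symm)
    rw [div_eq_div_iff y1 y1'] at h
    exact eq_of_ratio hD y2 y2' h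

/-- Linear dependence from vanishing of the determinant. -/
lemma exists_rel {L1 L2 L3 : ℝ × ℝ × ℝ} (hN1 : Nondeg L1) {x : ℝ × ℝ} (h1 : ev L1 x = 0)
    (h2 : ev L2 x ≠ 0) (hD : dt L1 L2 L3 = 0) :
    ∃ α β : ℝ, ∀ p, ev L3 p = α * ev L1 p + β * ev L2 p := by
  have hM := dt_crossForm_ne hN1 h1 h2
  rw [dt_crossForm] at hM
  set M := crossForm L1 L2 with hMdef
  set N := M.1 ^ 2 + M.2.1 ^ 2 + M.2.2 ^ 2 with hN
  refine ⟨(L3.1 * (L2.2.1 * M.2.2 - L2.2.2 * M.2.1) + L3.2.1 * (L2.2.2 * M.1 - L2.1 * M.2.2) +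
    L3.2.2 * (L2.1 * M.2.1 - L2.2.1 * M.1)) / N,
    (L3.1 * (M.2.1 * L1.2.2 - M.2.2 * L1.2.1) + L3.2.1 * (M.2.2 * L1.1 - M.1 * L1.2.2) +
    L3.2.2 * (M.1 * L1.2.1 - M.2.1 * L1.1)) / N, fun p => ?_⟩
  have key : N * ev L3 p =
    (L3.1 * (L2.2.1 * M.2.2 - L2.2.2 * M.2.1) + L3.2.1 * (L2.2.2 * M.1 - L2.1 * M.2.2) +
    L3.2.2 * (L2.1 * M.2.1 - L2.2.1 * M.1)) * ev L1 p +
    (L3.1 * (M.2.1 * L1.2.2 - M.2.2 * L1.2.1) + L3.2.1 * (M.2.2 * L1.1 - M.1 * L1.2.2) +
    L3.2.2 * (M.1 * L1.2.1 - M.2.1 * L1.1)) * ev L2 p + dt L1 L2 L3 * ev M p := by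
    rw [hN, hMdef]
    unfold ev dt crossForm
    ring
  rw [hD, zero_mul, add_zero] at key
  field_simp
  linarith

end Pool.Agent.H70.Dirac
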