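import Mathlib
import Pool.Agent.H70.Dirac.Three

set_option autoImplicit false

/-! Dirac-type bound for point sets on plane cubic curves. -/

namespace Pool.Agent.H70.Dirac

open Finset

lemma good_of_two {P : Finset (ℝ × ℝ)} {x z : ℝ × ℝ} (hx : x ∈ P) (hz : z ∈ P) {k l : ℕ}
    (h1 : Sees P x k) (h2 : Sees P z l) (h : P.card ≤ k + l + 1) : Good P := by
  rcases le_total k l with hkl | hkl
  · exact ⟨z, hz, l, h2, by omega⟩
  · exact ⟨x, hx, k, h1, by omega⟩

/-- The seven parts of a set covered by three lines. -/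
lemma card_le_seven {P : Finset (ℝ × ℝ)} {L1 L2 L3 : ℝ × ℝ × ℝ}
    (h : ∀ p ∈ P, ev L1 p = 0 ∨ ev L2 p = 0 ∨ ev L3 p = 0) :
    P.card ≤ (only P L1 L2 L3).card + (only P L2 L1 L3).card + (only P L3 L1 L2).card +
      (two P L1 L2 L3).card + (two P L1 L3 L2).card + (two P L2 L3 L1).card +
      (P.filter fun p => ev L1 p = 0 ∧ ev L2 p = 0 ∧ ev L3 p = 0).card := by
  classical
  have hsub : P ⊆ only P L1 L2 L3 ∪ only P L2 L1 L3 ∪ only P L3 L1 L2 ∪ two P L1 L2 L3 ∪
      two P L1 L3 L2 ∪ two P L2 L3 L1 ∪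
      (P.filter fun p => ev L1 p = 0 ∧ ev L2 p = 0 ∧ ev L3 p = 0) := by
    intro p hp
    simp only [mem_union, only, two, mem_filter]
    rcases h p hp with h | h | h <;> by_cases a : ev L1 p = 0 <;> by_cases b : ev L2 p = 0 <;>
      by_cases c : ev L3 p = 0 <;> simp_all
  refine (card_le_card hsub).trans ?_
  refine (card_union_le _ _).trans (Nat.add_le_add_right ?_ _)
  refine (card_union_le _ _).trans (Nat.add_le_add_right ?_ _)
  refine (card_union_le _ _).trans (Nat.add_le_add_right ?_ _)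
  refine (card_union_le _ _).trans (Nat.add_le_add_right ?_ _)
  refine (card_union_le _ _).trans (Nat.add_le_add_right ?_ _)
  exact card_union_le _ _

/-- At most one point lies on two distinct lines. -/
lemma card_inter_le_one {K L : ℝ × ℝ × ℝ} (hK : Nondeg K) {x : ℝ × ℝ}
    (h1 : ev K x = 0) (h2 : ev L x ≠ 0) (S : Finset (ℝ × ℝ))
    (hS : ∀ p ∈ S, ev K p = 0 ∧ ev L p = 0) : S.card ≤ 1 := by
  rw [card_le_one]
  intro p hp q hq
  by_contra hne
  exact cr_line L h2 (hS p hp).2 (hS q hq).2 hne (cr_zero hK h1 (hS p hp).1 (hS q hq).1)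

lemma arith_one {n m1 m2 m3 v12 v13 v23 v0 w w' k l T1 T3 : ℕ}
    (hcard : n ≤ m1 + m2 + m3 + v12 + v13 + v23 + v0) (hkc : m2 + m3 + v23 + w ≤ k + T1)
    (hlc : m2 + m1 + v12 + w' ≤ l + T3) (hpair : T1 + T3 ≤ m2 + 1) (h13 : v13 = 0) (h0 : v0 ≤ 1)
    (hw : w = 0 → v0 = 0) (hw1 : w ≤ 1) : n ≤ k + l + 1 := by
  omega

lemma arith_two {n m1 m2 m3 v12 v13 v23 v0 w w' k l T1 T3 : ℕ}
    (hcard : n ≤ m1 + m2 + m3 + v12 + v13 + v23 + v0) (hkc : m2 + m3 + v23 + w ≤ k + T1)
    (hlc : m2 + m1 + v12 + w' ≤ l + T3) (hpair : T1 + T3 ≤ m2 + 2) (h13 : v13 ≤ 1) (h0 : v0 = 0)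
    (hw : w = 0 → v13 = 0) (hw' : w' = 0 → v13 = 0) (hw1 : w ≤ 1) (hw1' : w' ≤ 1)
    (hne : ¬ (w = 0 ∧ w' = 0)) : n ≤ k + l + 1 := by
  omega

theorem good_three_lines {P : Finset (ℝ × ℝ)} (hP : NonCol P) {L1 L2 L3 : ℝ × ℝ × ℝ}
    (N1 : Nondeg L1) (N2 : Nondeg L2) (N3 : Nondeg L3)
    (h : ∀ p ∈ P, ev L1 p = 0 ∨ ev L2 p = 0 ∨ ev L3 p = 0) : Good P := by
  classical
  -- degenerate cases: two of the lines cover
  by_cases c1 : (only P L1 L2 L3).Nonempty
  swap
  · rw [not_nonempty_iff_eq_empty] at c1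
    refine good_two_lines hP N2 N3 fun p hp => ?_
    by_contra hcon
    push Not at hcon
    have : p ∈ only P L1 L2 L3 := by
      rw [only, mem_filter]
      rcases h p hp with h | h | h
      · exact ⟨hp, h, hcon.1, hcon.2⟩
      · exact absurd h hcon.1
      · exact absurd h hcon.2
    rw [c1] at this
    exact absurd this (notMem_empty _)
  by_cases c2 : (only P L2 L1 L3).Nonempty
  swap
  · rw [not_nonempty_iff_eq_empty] at c2
    refine good_two_lines hP N1 N3 fun p hp => ?_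
    by_contra hcon
    push Not at hcon
    have : p ∈ only P L2 L1 L3 := by
      rw [only, mem_filter]
      rcases h p hp with h | h | h
      · exact absurd h hcon.1
      · exact ⟨hp, h, hcon.1, hcon.2⟩
      · exact absurd h hcon.2
    rw [c2] at this
    exact absurd this (notMem_empty _)
  by_cases c3 : (only P L3 L1 L2).Nonempty
  swap
  · rw [not_nonempty_iff_eq_empty] at c3
    refine good_two_lines hP N1 N2 fun p hp => ?_
    by_contra hcon
    push Not at hcon
    have : p ∈ only P L3 L1 L2 := by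
      rw [only, mem_filter]
      rcases h p hp with h | h | h
      · exact absurd h hcon.1
      · exact absurd h hcon.2
      · exact ⟨hp, h, hcon.1, hcon.2⟩
    rw [c3] at this
    exact absurd this (notMem_empty _)
  have hcard := card_le_seven h
  have hm2 : 1 ≤ (only P L2 L1 L3).card := card_pos.2 c2
  -- a good pair
  have finish : ∀ (κ : ℕ), ((∃ x0 ∈ only P L1 L2 L3, ∃ z0 ∈ only P L3 L1 L2,
      ((only P L2 L1 L3).filter fun y => ∃ z ∈ only P L3 L1 L2, cr x0 y z = 0).card +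
      ((only P L2 L1 L3).filter fun y => ∃ x ∈ only P L1 L2 L3, cr z0 y x = 0).card
        ≤ (only P L2 L1 L3).card + κ)) →
      (κ = 2 → (two P L1 L3 L2).card ≤ 1 ∧
        (P.filter fun p => ev L1 p = 0 ∧ ev L2 p = 0 ∧ ev L3 p = 0).card = 0) →
      (κ = 1 → (two P L1 L3 L2).card = 0 ∧
        (P.filter fun p => ev L1 p = 0 ∧ ev L2 p = 0 ∧ ev L3 p = 0).card ≤ 1) →
      (κ = 1 ∨ κ = 2) → Good P := by
    rintro κ ⟨x0, hx0, z0, hz0, hpair⟩ hk2 hk1 hκ
    obtain ⟨hx0P, x1, x2, x3⟩ := mem_filter.1 hx0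
    obtain ⟨hz0P, z3, z1, z2⟩ := mem_filter.1 hz0
    -- extra points
    have hwx : ∃ w : ℕ, (w = 0 ∨ (w = 1 ∧ ∃ q ∈ P, q ≠ x0 ∧ ev L1 q = 0)) ∧
        (w = 0 → (two P L1 L3 L2).card = 0 ∧ (two P L1 L2 L3).card = 0 ∧
          (P.filter fun p => ev L1 p = 0 ∧ ev L2 p = 0 ∧ ev L3 p = 0).card = 0 ∧
          (only P L1 L2 L3).card = 1) ∧ w ≤ 1 := by
      by_cases hq : ∃ q ∈ P, q ≠ x0 ∧ ev L1 q = 0
      · exact ⟨1, Or.inr ⟨rfl, hq⟩, by omega, le_rfl⟩
      · push Not at hq
        refine ⟨0, Or.inl rfl, fun _ => ⟨?_, ?_, ?_, ?_⟩, by omega⟩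
        · rw [card_eq_zero, eq_empty_iff_forall_notMem]
          intro q hq'
          obtain ⟨a, b, c, d⟩ := mem_filter.1 hq'
          exact hq q a (fun h => x3 (h ▸ c)) b
        · rw [card_eq_zero, eq_empty_iff_forall_notMem]
          intro q hq'
          obtain ⟨a, b, c, d⟩ := mem_filter.1 hq'
          exact hq q a (fun h => x2 (h ▸ c)) b
        · rw [card_eq_zero, eq_empty_iff_forall_notMem]
          intro q hq'
          obtain ⟨a, b, c, d⟩ := mem_filter.1 hq'
          exact hq q a (fun h => x2 (h ▸ c)) b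
        · rw [card_eq_one]
          refine ⟨x0, eq_singleton_iff_unique_mem.2 ⟨hx0, fun q hq' => ?_⟩⟩
          obtain ⟨a, b, c, d⟩ := mem_filter.1 hq'
          by_contra hne
          exact hq q a hne b
    have hwz : ∃ w : ℕ, (w = 0 ∨ (w = 1 ∧ ∃ q ∈ P, q ≠ z0 ∧ ev L3 q = 0)) ∧
        (w = 0 → (two P L1 L3 L2).card = 0 ∧ (two P L2 L3 L1).card = 0 ∧
          (P.filter fun p => ev L1 p = 0 ∧ ev L2 p = 0 ∧ ev L3 p = 0).card = 0 ∧
          (only P L3 L1 L2).card = 1) ∧ w ≤ 1 := by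
      by_cases hq : ∃ q ∈ P, q ≠ z0 ∧ ev L3 q = 0
      · exact ⟨1, Or.inr ⟨rfl, hq⟩, by omega, le_rfl⟩
      · push Not at hq
        refine ⟨0, Or.inl rfl, fun _ => ⟨?_, ?_, ?_, ?_⟩, by omega⟩
        · rw [card_eq_zero, eq_empty_iff_forall_notMem]
          intro q hq'
          obtain ⟨a, b, c, d⟩ := mem_filter.1 hq'
          exact hq q a (fun h => z1 (h ▸ b)) c
        · rw [card_eq_zero, eq_empty_iff_forall_notMem]
          intro q hq'
          obtain ⟨a, b, c, d⟩ := mem_filter.1 hq'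
          exact hq q a (fun h => z2 (h ▸ b)) c
        · rw [card_eq_zero, eq_empty_iff_forall_notMem]
          intro q hq'
          obtain ⟨a, b, c, d⟩ := mem_filter.1 hq'
          exact hq q a (fun h => z1 (h ▸ b)) d
        · rw [card_eq_one]
          refine ⟨z0, eq_singleton_iff_unique_mem.2 ⟨hz0, fun q hq' => ?_⟩⟩
          obtain ⟨a, b, c, d⟩ := mem_filter.1 hq'
          by_contra hne
          exact hq q a hne b
    obtain ⟨w, hw, hw0, hw1⟩ := hwx
    obtain ⟨w', hw', hw0', hw1'⟩ := hwz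
    obtain ⟨k, hk, hkc⟩ := sees_main (P := P) x1 x2 x3 hw
    -- for z0 the roles of the first and third line are exchanged
    obtain ⟨l, hl, hlc⟩ := sees_main (P := P) (L1 := L3) (L2 := L2) (L3 := L1) z3 z2 z1 hw'
    have e1 : only P L2 L3 L1 = only P L2 L1 L3 := by
      unfold only; exact filter_congr fun p _ => by tauto
    have e2 : only P L1 L3 L2 = only P L1 L2 L3 := by
      unfold only; exact filter_congr fun p _ => by tauto
    have e3 : two P L2 L1 L3 = two P L1 L2 L3 := by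
      unfold two; exact filter_congr fun p _ => by tauto
    rw [e1, e2, e3] at hlc
    by_cases hboth : w = 0 ∧ w' = 0
    · -- both outer lines carry a single point
      obtain ⟨ha, hb⟩ := hboth
      obtain ⟨a1, a2, a3, a4⟩ := hw0 ha
      obtain ⟨b1, b2, b3, b4⟩ := hw0' hb
      have hsee := sees_line P L2 (z := x0) x2
      have hle : (only P L2 L1 L3).card ≤ (P.filter fun p => ev L2 p = 0).card := by
        apply card_le_card
        intro p hp
        obtain ⟨a, b, -, -⟩ := mem_filter.1 hp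
        exact mem_filter.2 ⟨a, b⟩
      exact ⟨x0, hx0P, _, hsee, by omega⟩
    · apply good_of_two hx0P hz0P hk hl
      rcases hκ with rfl | rfl
      · obtain ⟨q1, q2⟩ := hk1 rfl
        exact arith_one hcard hkc hlc hpair q1 q2 (fun h => (hw0 h).2.2.1) hw1
      · obtain ⟨q1, q2⟩ := hk2 rfl
        exact arith_two hcard hkc hlc hpair q1 q2 (fun h => (hw0 h).1) (fun h => (hw0' h).1)
          hw1 hw1' hboth
  obtain ⟨u, hu⟩ := c1
  obtain ⟨-, u1, u2, u3⟩ := mem_filter.1 hu
  by_cases hD : dt L1 L2 L3 = 0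
  · obtain ⟨α, β, hrel⟩ := exists_rel N1 u1 u2 hD
    have hβ : β ≠ 0 := by
      rintro rfl
      apply u3
      rw [hrel, u1]; ring
    refine finish 1 (pair_dep N1 hrel ⟨u, hu⟩ c3) (by omega) (fun _ => ⟨?_, ?_⟩) (Or.inl rfl)
    · rw [card_eq_zero, eq_empty_iff_forall_notMem]
      intro q hq
      obtain ⟨a, b, c, d⟩ := mem_filter.1 hq
      rw [hrel, b] at c
      apply d
      have : β * ev L2 q = 0 := by linarith
      exact (mul_eq_zero.1 this).resolve_left hβ
    · refine card_inter_le_one N1 u1 u2 _ fun p hp => ?_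
      obtain ⟨-, a, b, -⟩ := mem_filter.1 hp
      exact ⟨a, b⟩
  · refine finish 2 (pair_indep hD ⟨u, hu⟩ c3) (fun _ => ⟨?_, ?_⟩) (by omega) (Or.inr rfl)
    · refine card_inter_le_one N1 u1 u3 _ fun p hp => ?_
      obtain ⟨-, a, b, -⟩ := mem_filter.1 hp
      exact ⟨a, b⟩
    · rw [card_eq_zero, eq_empty_iff_forall_notMem]
      intro q hq
      obtain ⟨-, a, b, c⟩ := mem_filter.1 hq
      apply hD
      have e : dt L1 L2 L3 = ev L1 q * (L2.1 * L3.2.1 - L2.2.1 * L3.1) -
          ev L2 q * (L1.1 * L3.2.1 - L1.2.1 * L3.1) +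
          ev L3 q * (L1.1 * L2.2.1 - L1.2.1 * L2.1) := by
        unfold dt ev; ring
      rw [e, a, b, c]; ring

/-- If every point of `P` distinct from `p` is, together with `p`, on a line with at most one
further point, then `p` lies on at least half of the possible number of lines. -/
lemma sees_half (P : Finset (ℝ × ℝ)) {p : ℝ × ℝ} (hp : p ∈ P)
    (h : ∀ q ∈ P, q ≠ p → (P.filter fun r => cr p q r = 0).card ≤ 3) :
    ∃ k, Sees P p k ∧ P.card ≤ 2 * k + 1 := by
  -- a maximal visible set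
  have hdec : DecidablePred fun S : Finset (ℝ × ℝ) => ∀ q ∈ S, ∀ r ∈ S, q ≠ r → cr p q r ≠ 0 :=
    Classical.decPred _
  set F := (P.erase p).powerset.filter fun S => ∀ q ∈ S, ∀ r ∈ S, q ≠ r → cr p q r ≠ 0 with hFdef
  have hF : F.Nonempty := ⟨∅, by simp [F]⟩
  obtain ⟨S, hS, hmax⟩ := F.exists_max_image (fun S => S.card) hF
  obtain ⟨hSP, hSpair⟩ := mem_filter.1 hS
  rw [mem_powerset] at hSP
  refine ⟨S.card, ⟨S, hSP.trans (erase_subset _ _), fun hpS => ?_, le_rfl, hSpair⟩, ?_⟩
  · exact (mem_erase.1 (hSP hpS)).1 rfl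
  have hcover : P.erase p ⊆ S.biUnion fun s => (P.filter fun r => cr p s r = 0).erase p := by
    intro r hr
    rw [mem_biUnion]
    obtain ⟨hrp, hrP⟩ := mem_erase.1 hr
    by_contra hcon
    push Not at hcon
    have hrS : r ∉ S := by
      intro hrS
      apply hcon r hrS
      rw [mem_erase, mem_filter]
      exact ⟨hrp, hrP, by unfold cr; ring⟩
    have hnew : insert r S ∈ F := by
      rw [mem_filter, mem_powerset]
      refine ⟨insert_subset hr hSP, ?_⟩
      have hne : ∀ s ∈ S, cr p s r ≠ 0 := by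
        intro s hs h0
        apply hcon s hs
        rw [mem_erase, mem_filter]
        exact ⟨hrp, hrP, h0⟩
      intro a ha b hb hab
      rcases mem_insert.1 ha with ha | ha
      · rcases mem_insert.1 hb with hb | hb
        · exact absurd (ha.trans hb.symm) hab
        · rw [ha, cr_swap, neg_ne_zero]; exact hne b hb
      · rcases mem_insert.1 hb with hb | hb
        · rw [hb]; exact hne a ha
        · exact hSpair a ha b hb hab
    have := hmax _ hnew
    rw [card_insert_of_notMem hrS] at this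
    omega
  have h1 := (card_le_card hcover).trans (card_biUnion_le_card_mul _ _ 2 (by
    intro s hs
    obtain ⟨hsp, hsP⟩ := mem_erase.1 (hSP hs)
    have h3 := h s hsP hsp
    have hpm : p ∈ P.filter fun r => cr p s r = 0 := by
      rw [mem_filter]; exact ⟨hp, by unfold cr; ring⟩
    rw [card_erase_of_mem hpm]
    omega))
  rw [card_erase_of_mem hp] at h1
  omega

/-- The line through two points as an affine form. -/
def lineForm (p q : ℝ × ℝ) : ℝ × ℝ × ℝ :=
  (-(q.2 - p.2), q.1 - p.1, (q.2 - p.2) * p.1 - (q.1 - p.1) * p.2)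

lemma ev_lineForm (p q r : ℝ × ℝ) : ev (lineForm p q) r = cr p q r := by
  unfold ev lineForm cr; ring

lemma nondeg_lineForm {p q : ℝ × ℝ} (h : q ≠ p) : Nondeg (lineForm p q) := by
  intro h'
  rw [Prod.mk.injEq] at h'
  simp only [lineForm] at h'
  exact h (Prod.ext (by linarith [h'.2]) (by linarith [h'.1]))

theorem good_cubic {P : Finset (ℝ × ℝ)} (hP : NonCol P) {f : ℝ × ℝ → ℝ} (hf : PolyFn 3 f)
    (hf0 : ∃ p, f p ≠ 0) (h : ∀ p ∈ P, f p = 0) : Good P := by
  classical
  by_cases hA : ∀ L : ℝ × ℝ × ℝ, Nondeg L → (P.filter fun p => ev L p = 0).card ≤ 3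
  · -- no four points on a line
    obtain ⟨p, hp, -⟩ := hP (1, 0, 0) (by simp [Nondeg])
    obtain ⟨k, hk, hkc⟩ := sees_half P hp (fun q _ hqp => by
      have := hA (lineForm p q) (nondeg_lineForm hqp)
      simpa only [ev_lineForm] using this)
    exact ⟨p, hp, k, hk, hkc⟩
  push Not at hA
  obtain ⟨L1, N1, hL1⟩ := hA
  obtain ⟨g, hg, hfg⟩ := hf.div_line L1 N1 (P.filter fun p => ev L1 p = 0) (by omega)
    (fun p hp => (mem_filter.1 hp).2) (fun p hp => h p (mem_filter.1 hp).1)
  set Q := P.filter fun p => ev L1 p ≠ 0 with hQ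
  have hgQ : ∀ p ∈ Q, g p = 0 := by
    intro p hp
    obtain ⟨a, b⟩ := mem_filter.1 hp
    have := h p a
    rw [hfg] at this
    exact (mul_eq_zero.1 this).resolve_left b
  have hsplit : P.card = (P.filter fun p => ev L1 p = 0).card + Q.card := by
    rw [hQ, card_filter_add_card_filter_not]
  by_cases hB : ∀ L : ℝ × ℝ × ℝ, Nondeg L → (Q.filter fun p => ev L p = 0).card ≤ 2
  · -- the rest has no three points on a line
    obtain ⟨p, hp, hp1⟩ := hP L1 N1
    have s1 := sees_line P L1 hp1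
    have hpQ : p ∈ Q := mem_filter.2 ⟨hp, hp1⟩
    have s2 : Sees P p (Q.card - 1) := by
      refine ⟨Q.erase p, (erase_subset _ _).trans (filter_subset _ _), notMem_erase _ _, ?_, ?_⟩
      · rw [card_erase_of_mem hpQ]
      · intro a ha b hb hab h0
        obtain ⟨ha1, ha2⟩ := mem_erase.1 ha
        obtain ⟨hb1, hb2⟩ := mem_erase.1 hb
        have h2 := hB (lineForm p a) (nondeg_lineForm ha1)
        have h3 : ({p, a, b} : Finset (ℝ × ℝ)) ⊆ Q.filter fun q => ev (lineForm p a) q = 0 := by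
          intro q hq
          rw [mem_filter, ev_lineForm]
          rw [mem_insert, mem_insert, mem_singleton] at hq
          rcases hq with rfl | rfl | rfl
          · exact ⟨hpQ, by unfold cr; ring⟩
          · exact ⟨ha2, by unfold cr; ring⟩
          · exact ⟨hb2, h0⟩
        have h4 := card_le_card h3
        have h5 : ({p, a, b} : Finset (ℝ × ℝ)).card = 3 := by
          rw [card_eq_three]
          exact ⟨p, a, b, ha1.symm, hb1.symm, hab, rfl⟩
        omega
    have hQpos : 1 ≤ Q.card := card_pos.2 ⟨p, hpQ⟩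
    exact good_of_two hp hp s1 s2 (by omega)
  push Not at hB
  obtain ⟨L2, N2, hL2⟩ := hB
  obtain ⟨e, he, hge⟩ := hg.div_line L2 N2 (Q.filter fun p => ev L2 p = 0) (by omega)
    (fun p hp => (mem_filter.1 hp).2) (fun p hp => hgQ p (mem_filter.1 hp).1)
  obtain ⟨e1, e2, ⟨c1, h1⟩, ⟨c2, h2⟩, c, hc⟩ := he
  have heL : ∀ p, e p = ev (c1, c2, c) p := by
    intro p
    rw [hc, h1, h2]
    unfold ev
    ring
  by_cases hN : Nondeg (c1, c2, c)
  · refine good_three_lines hP N1 N2 hN fun p hp => ?_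
    have hp0 := h p hp
    rw [hfg, hge, heL] at hp0
    rcases mul_eq_zero.1 hp0 with h' | h'
    · exact Or.inl h'
    · rcases mul_eq_zero.1 h' with h' | h'
      · exact Or.inr (Or.inl h')
      · exact Or.inr (Or.inr h')
  · refine good_two_lines hP N1 N2 fun p hp => ?_
    have hp0 := h p hp
    rw [hfg, hge, heL] at hp0
    unfold Nondeg at hN
    push Not at hN
    rw [Prod.mk.injEq] at hN
    have hc0 : c ≠ 0 := by
      rintro rfl
      obtain ⟨p, hp⟩ := hf0
      apply hp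
      rw [hfg, hge, heL]
      unfold ev
      rw [hN.1, hN.2]
      ring
    have hev : ev (c1, c2, c) p = c := by
      unfold ev
      rw [hN.1, hN.2]; ring
    rw [hev] at hp0
    rcases mul_eq_zero.1 hp0 with h' | h'
    · exact Or.inl h'
    · rcases mul_eq_zero.1 h' with h' | h'
      · exact Or.inr h'
      · exact absurd h' hc0

end Pool.Agent.H70.Dirac
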