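import Mathlib
import Pool.Agent.H70.Dirac.Cubic

set_option autoImplicit false

/-! Transfer to the Euclidean plane. -/

namespace Pool.Agent.H70.Dirac

open Finset

/-- The Euclidean plane. -/
abbrev E2 := EuclideanSpace ℝ (Fin 2)

/-- Coordinates. -/
def co (p : E2) : ℝ × ℝ := (p 0, p 1)

lemma co_injective : Function.Injective co := by
  intro p q h
  have h0 : p 0 = q 0 := congrArg Prod.fst h
  have h1 : p 1 = q 1 := congrArg Prod.snd h
  ext i
  fin_cases i
  · exact h0
  · exact h1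

lemma cr_eq_zero_of_mem {p q r : E2} (h : r ∈ affineSpan ℝ ({p, q} : Set E2)) :
    cr (co p) (co q) (co r) = 0 := by
  rw [mem_affineSpan_pair_iff_exists_lineMap_eq] at h
  obtain ⟨t, rfl⟩ := h
  unfold cr co
  simp only [AffineMap.lineMap_apply, vsub_eq_sub, vadd_eq_add, PiLp.add_apply, PiLp.smul_apply,
    PiLp.sub_apply, smul_eq_mul]
  ring

/-- The number of connecting lines through `p`. -/
lemma le_ncard_of_sees {P : Finset E2} {p : E2} {k : ℕ} {S0 : Finset (ℝ × ℝ)}
    (hS0 : ∀ s ∈ S0, ∃ q ∈ P, co q = s) (h : Sees S0 (co p) k) :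
    k ≤ {L : AffineSubspace ℝ E2 | ∃ q ∈ P, q ≠ p ∧ L = affineSpan ℝ {p, q}}.ncard := by
  classical
  obtain ⟨S, hS, hpS, hk, hpair⟩ := h
  have hex : ∀ s ∈ S, ∃ q ∈ P, co q = s := fun s hs => hS0 s (hS hs)
  choose! g hg using hex
  have hfin : {L : AffineSubspace ℝ E2 | ∃ q ∈ P, q ≠ p ∧ L = affineSpan ℝ {p, q}}.Finite := by
    refine (P.finite_toSet.image (fun q => affineSpan ℝ ({p, q} : Set E2))).subset ?_
    rintro L ⟨q, hq, -, rfl⟩
    exact ⟨q, hq, rfl⟩
  refine hk.trans ?_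
  rw [← Set.ncard_coe_finset]
  refine Set.ncard_le_ncard_of_injOn (fun s => affineSpan ℝ ({p, g s} : Set E2)) ?_ ?_ hfin
  · intro s hs
    rw [mem_coe] at hs
    refine ⟨g s, (hg s hs).1, ?_, rfl⟩
    intro h
    apply hpS
    rw [← h, (hg s hs).2]
    exact hs
  · intro s hs s' hs' h
    rw [mem_coe] at hs hs'
    by_contra hne
    apply hpair s hs s' hs' hne
    have h' : affineSpan ℝ ({p, g s} : Set E2) = affineSpan ℝ {p, g s'} := h
    have hmem : g s' ∈ affineSpan ℝ ({p, g s} : Set E2) := by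
      rw [h']
      exact right_mem_affineSpan_pair ℝ p (g s')
    have := cr_eq_zero_of_mem hmem
    rwa [(hg s hs).2, (hg s' hs').2] at this

lemma collinear_of_line {P : Finset E2} {L : ℝ × ℝ × ℝ} (hL : Nondeg L)
    (h : ∀ p ∈ P, ev L (co p) = 0) : Collinear ℝ (P : Set E2) := by
  rcases P.eq_empty_or_nonempty with rfl | ⟨p0, hp0⟩
  · simpa using collinear_empty ℝ E2
  · rw [collinear_iff_exists_forall_eq_smul_vadd]
    have hN := hL.pos
    refine ⟨p0, !₂[-L.2.1, L.1], fun p hp => ?_⟩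
    have e0 := h p0 hp0
    have e1 := h p hp
    unfold ev co at e0 e1
    simp only at e0 e1
    have e2 : L.1 * (p 0 - p0 0) + L.2.1 * (p 1 - p0 1) = 0 := by linarith
    refine ⟨(-L.2.1 * (p 0 - p0 0) + L.1 * (p 1 - p0 1)) / (L.1 ^ 2 + L.2.1 ^ 2), ?_⟩
    ext i
    fin_cases i
    · simp
      field_simp
      linear_combination L.1 * e2
    · simp
      field_simp
      linear_combination L.2.1 * e2

lemma PolyFn.sum {ι : Type} (s : Finset ι) {n : ℕ} (f : ι → ℝ × ℝ → ℝ)
    (hf : ∀ i ∈ s, PolyFn n (f i)) : PolyFn n (fun p => ∑ i ∈ s, f i p) := by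
  classical
  induction s using Finset.induction_on with
  | empty => simpa using polyFn_const n 0
  | insert a s ha ih =>
    refine ((hf a (mem_insert_self _ _)).add
      (ih fun i hi => hf i (mem_insert_of_mem hi))).congr fun p => ?_
    rw [sum_insert ha]

lemma polyFn_mono (a b : ℕ) : PolyFn (a + b) (fun p => p.1 ^ a * p.2 ^ b) := by
  induction a with
  | zero =>
    induction b with
    | zero => exact (polyFn_const 0 1).congr fun p => by simp
    | succ b ih => exact ih.snd_mul.congr fun p => by ring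
  | succ a ih =>
    rw [show a + 1 + b = (a + b) + 1 by ring]
    exact ih.fst_mul.congr fun p => by ring

lemma polyFn_of_mvPolynomial (F : MvPolynomial (Fin 2) ℝ) {n : ℕ} (hdeg : F.totalDegree ≤ n) :
    PolyFn n (fun p => MvPolynomial.eval ![p.1, p.2] F) := by
  have h : ∀ d ∈ F.support, PolyFn n (fun p : ℝ × ℝ => F.coeff d * (p.1 ^ d 0 * p.2 ^ d 1)) := by
    intro d hd
    have h1 : (d.sum fun _ e => e) ≤ n := (MvPolynomial.le_totalDegree hd).trans hdeg
    have h2 : d 0 + d 1 ≤ n := by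
      rw [Finsupp.sum_fintype _ _ (fun _ => rfl)] at h1
      simpa [Fin.sum_univ_two] using h1
    exact ((polyFn_mono (d 0) (d 1)).mono h2).const_mul _
  refine (PolyFn.sum F.support _ h).congr fun p => ?_
  rw [MvPolynomial.eval_eq']
  refine sum_congr rfl fun d _ => ?_
  rw [Fin.prod_univ_two]
  simp

theorem dirac_cubic (P : Finset E2) (hP : ¬ Collinear ℝ (P : Set E2))
    (F : MvPolynomial (Fin 2) ℝ) (hF : F ≠ 0) (hdeg : F.totalDegree ≤ 3) (t : ℕ)
    (ht : {p : E2 | p ∈ P ∧ MvPolynomial.eval (fun i => p i) F ≠ 0}.ncard ≤ t) :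
    ∃ p ∈ P, (P.card : ℝ) / 2 - ((t : ℝ) + 1) / 2 ≤
      (({L : AffineSubspace ℝ E2 | ∃ q ∈ P, q ≠ p ∧ L = affineSpan ℝ {p, q}}.ncard : ℕ) : ℝ) := by
  classical
  set f : ℝ × ℝ → ℝ := fun p => MvPolynomial.eval ![p.1, p.2] F with hf
  have hfP := polyFn_of_mvPolynomial F hdeg
  have hfco : ∀ p : E2, f (co p) = MvPolynomial.eval (fun i => p i) F := by
    intro p
    simp only [hf, co]
    congr 1
    congr 1
    funext i
    fin_cases i <;> rfl
  have hf0 : ∃ p, f p ≠ 0 := by
    by_contra hcon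
    push Not at hcon
    apply hF
    apply MvPolynomial.funext
    intro x
    have := hcon (x 0, x 1)
    simp only [hf] at this
    rw [map_zero, ← this]
    congr 1
    congr 1
    funext i
    fin_cases i <;> rfl
  set P0 := P.filter fun p => f (co p) = 0 with hP0
  have hcard : P.card ≤ P0.card + t := by
    have h1 : P.card = P0.card + (P.filter fun p => ¬ f (co p) = 0).card := by
      rw [hP0, card_filter_add_card_filter_not]
    have h2 : (P.filter fun p => ¬ f (co p) = 0).card ≤ t := by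
      rw [← Set.ncard_coe_finset]
      refine le_trans (le_of_eq ?_) ht
      congr 1
      ext p
      simp [hfco]
    omega
  have finish : ∀ p ∈ P, ∀ k : ℕ, (P0.card ≤ 2 * k + 1) →
      k ≤ {L : AffineSubspace ℝ E2 | ∃ q ∈ P, q ≠ p ∧ L = affineSpan ℝ {p, q}}.ncard →
      (P.card : ℝ) / 2 - ((t : ℝ) + 1) / 2 ≤
      (({L : AffineSubspace ℝ E2 | ∃ q ∈ P, q ≠ p ∧ L = affineSpan ℝ {p, q}}.ncard : ℕ) : ℝ) := by
    intro p _ k hk1 hk2
    have h1 : P.card ≤ 2 * k + 1 + t := by omega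
    have h2 : (P.card : ℝ) ≤ 2 * k + 1 + t := by exact_mod_cast h1
    have h3 : (k : ℝ) ≤ ({L : AffineSubspace ℝ E2 |
        ∃ q ∈ P, q ≠ p ∧ L = affineSpan ℝ {p, q}}.ncard : ℕ) := by exact_mod_cast hk2
    linarith
  by_cases hcol : NonCol (P0.image co)
  · obtain ⟨s, hs, k, hk, hkc⟩ := good_cubic hcol hfP hf0 (by
      intro s hs
      obtain ⟨p, hp, rfl⟩ := mem_image.1 hs
      exact (mem_filter.1 hp).2)
    obtain ⟨p, hp, rfl⟩ := mem_image.1 hs
    rw [card_image_of_injective _ co_injective] at hkc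
    refine ⟨p, (mem_filter.1 hp).1, finish p (mem_filter.1 hp).1 k hkc ?_⟩
    refine le_ncard_of_sees (S0 := P0.image co) ?_ hk
    intro s hs
    obtain ⟨q, hq, rfl⟩ := mem_image.1 hs
    exact ⟨q, (mem_filter.1 hq).1, rfl⟩
  · unfold NonCol at hcol
    push Not at hcol
    obtain ⟨L, hL, hLP⟩ := hcol
    have hex : ∃ z ∈ P, ev L (co z) ≠ 0 := by
      by_contra hcon
      push Not at hcon
      exact hP (collinear_of_line hL hcon)
    obtain ⟨z, hz, hz'⟩ := hex
    have hsee := sees_line (P0.image co) L hz'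
    have hall : (P0.image co).filter (fun p => ev L p = 0) = P0.image co := by
      rw [filter_eq_self]
      exact hLP
    rw [hall, card_image_of_injective _ co_injective] at hsee
    refine ⟨z, hz, finish z hz P0.card (by omega) ?_⟩
    refine le_ncard_of_sees (S0 := P0.image co) ?_ hsee
    intro s hs
    obtain ⟨q, hq, rfl⟩ := mem_image.1 hs
    exact ⟨q, (mem_filter.1 hq).1, rfl⟩

end Pool.Agent.H70.Dirac
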